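import Pool.Agent.Helper919.Stage0

/-!
# Mertens' theorem for a real character: the sum of `(e | p) / p` is bounded
-/

set_option autoImplicit false

namespace Pool.Agent.W400.QF

open Finset ArithmeticFunction Filter Topology Pool.Agent.Helper919
open scoped ArithmeticFunction.Moebius ArithmeticFunction.zeta

theorem tail_bound (n : ℤ) (hn : n ≠ 0) (hsq : ¬ IsSquare n) (D M : ℕ) (hM : D ≤ M) :
    |∑ d ∈ Ioc D M, XX n d| ≤ 8 * n.natAbs := by
  have h1 := XX_sum_bound n hn hsq M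
  have h2 := XX_sum_bound n hn hsq D
  have h3 : ∑ d ∈ Ioc D M, XX n d = ∑ d ∈ Ioc 0 M, XX n d - ∑ d ∈ Ioc 0 D, XX n d := by
    rw [eq_sub_iff_add_eq, add_comm, Finset.sum_Ioc_consecutive _ (Nat.zero_le D) hM]
  rw [h3]
  rw [abs_le] at h1 h2 ⊢
  constructor <;> linarith [h1.1, h1.2, h2.1, h2.2]

/-- the value `L(1, χ)` -/
theorem L_approx (n : ℤ) (hn : n ≠ 0) (hsq : ¬ IsSquare n) : ∃ L : ℝ, 0 < L ∧ ∀ D : ℕ,
    |∑ d ∈ Ioc 0 D, XX n d / (d : ℝ) - L| ≤ 8 * n.natAbs / (D + 1) := by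
  obtain ⟨L, hL, hlim⟩ := stage0_nonsquare n hn hsq
  refine ⟨L, hL, fun D => ?_⟩
  have hform : ∀ N : ℕ, ∑ m ∈ Ioc 0 N, (XX n * (ζ : ArithmeticFunction ℝ)) m
      = ∑ d ∈ Ioc 0 N, XX n d * ((N / d : ℕ) : ℝ) := fun N => sum_Ioc_mul_zeta_eq_sum (XX n) N
  simp_rw [hform] at hlim
  set B : ℝ := 8 * n.natAbs with hBdef
  have hB0 : 0 ≤ B := by positivity
  have hDpos : (0 : ℝ) < D + 1 := by positivity
  have h1 : Tendsto (fun N : ℕ => (∑ d ∈ Ioc 0 D, XX n d * ((N / d : ℕ) : ℝ)) / (N : ℝ)) atTop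
      (𝓝 (∑ d ∈ Ioc 0 D, XX n d / (d : ℝ))) := by
    have h1 : Tendsto (fun N : ℕ => ∑ d ∈ Ioc 0 D, XX n d * (((N / d : ℕ) : ℝ) / (N : ℝ))) atTop
        (𝓝 (∑ d ∈ Ioc 0 D, XX n d * (1 / (d : ℝ)))) := by
      apply tendsto_finsetSum
      intro d hd
      exact (isWt_id.lim d (Finset.mem_Ioc.1 hd).1).const_mul _
    have h2 : ∑ d ∈ Ioc 0 D, XX n d / (d : ℝ) = ∑ d ∈ Ioc 0 D, XX n d * (1 / (d : ℝ)) :=
      Finset.sum_congr rfl fun d _ => by ring
    rw [h2]
    refine h1.congr fun N => ?_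
    rw [Finset.sum_div]
    refine Finset.sum_congr rfl fun d _ => ?_
    ring
  have h2 := (h1.sub hlim).abs
  refine le_of_tendsto h2 ?_
  filter_upwards [eventually_ge_atTop (D + 1)] with N hN
  have hNpos : (0 : ℝ) < N := by exact_mod_cast (by omega : 0 < N)
  rw [abs_sub_comm, ← sub_div]
  have hsplit : ∑ d ∈ Ioc 0 N, XX n d * ((N / d : ℕ) : ℝ) - ∑ d ∈ Ioc 0 D, XX n d * ((N / d : ℕ) : ℝ)
      = ∑ d ∈ Ioc D N, XX n d * ((N / d : ℕ) : ℝ) := by
    rw [sub_eq_iff_eq_add, add_comm]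
    rw [Finset.sum_Ioc_consecutive _ (Nat.zero_le D) (by omega)]
  rw [hsplit, abs_div, abs_of_pos hNpos, div_le_iff₀ hNpos]
  have h4 := abel_bound (fun d => XX n d) (fun d => ((N / d : ℕ) : ℝ)) D B
    (fun M hM => tail_bound n hn hsq D M hM)
    (fun d _ => Nat.cast_nonneg _)
    (fun d hd => by
      have : N / (d + 1) ≤ N / d := Nat.div_le_div_left (by omega) (by omega)
      exact_mod_cast this) N hN
  refine h4.trans ?_
  have h5 : ((N / (D + 1) : ℕ) : ℝ) ≤ (N : ℝ) / (D + 1) := by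
    have := @Nat.cast_div_le ℝ _ _ _ N (D + 1)
    push_cast at this
    exact this
  calc B * ((N / (D + 1) : ℕ) : ℝ) ≤ B * ((N : ℝ) / (D + 1)) := mul_le_mul_of_nonneg_left h5 hB0
    _ = B / (D + 1) * N := by ring

/-- the sum with a logarithm -/
theorem log_bound (n : ℤ) (hn : n ≠ 0) (hsq : ¬ IsSquare n) : ∃ C : ℝ, ∀ N : ℕ,
    |∑ d ∈ Ioc 0 N, XX n d * (Real.log d / d)| ≤ C := by
  set B : ℝ := 8 * n.natAbs with hBdef
  have hB0 : 0 ≤ B := by positivity
  have hu : ∀ d : ℕ, 4 ≤ d → Real.log ((d + 1 : ℕ) : ℝ) / ((d + 1 : ℕ) : ℝ) ≤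
      Real.log (d : ℝ) / (d : ℝ) := by
    intro d hd
    have he : Real.exp 1 ≤ (d : ℝ) := by
      have h1 := Real.exp_one_lt_d9
      have h2 : (4 : ℝ) ≤ d := by exact_mod_cast hd
      linarith
    have he' : Real.exp 1 ≤ ((d + 1 : ℕ) : ℝ) := by push_cast; linarith
    exact Real.log_div_self_antitoneOn he he' (by push_cast; linarith)
  refine ⟨(∑ d ∈ Ioc 0 3, |XX n d * (Real.log d / d)|) + B * (Real.log 4 / 4), fun N => ?_⟩
  rcases Nat.lt_or_ge N 4 with h | h
  · have h1 : |∑ d ∈ Ioc 0 N, XX n d * (Real.log d / d)| ≤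
        ∑ d ∈ Ioc 0 3, |XX n d * (Real.log d / d)| := by
      refine (Finset.abs_sum_le_sum_abs _ _).trans ?_
      refine Finset.sum_le_sum_of_subset_of_nonneg ?_ fun _ _ _ => abs_nonneg _
      exact Finset.Ioc_subset_Ioc_right (by omega)
    have h2 : 0 ≤ B * (Real.log 4 / 4) := by
      have := Real.log_nonneg (by norm_num : (1 : ℝ) ≤ 4)
      positivity
    linarith
  · have h1 := abel_bound (fun d => XX n d) (fun d => Real.log d / d) 3 B
      (fun M hM => tail_bound n hn hsq 3 M hM)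
      (fun d hd => div_nonneg (Real.log_natCast_nonneg d) (Nat.cast_nonneg d))
      (fun d hd => hu d hd) N h
    have h2 : ∑ d ∈ Ioc 0 N, XX n d * (Real.log d / d) =
        ∑ d ∈ Ioc 0 3, XX n d * (Real.log d / d) + ∑ d ∈ Ioc 3 N, XX n d * (Real.log d / d) := by
      rw [Finset.sum_Ioc_consecutive _ (Nat.zero_le 3) (by omega)]
    rw [h2]
    refine (abs_add_le _ _).trans (add_le_add (Finset.abs_sum_le_sum_abs _ _) ?_)
    have h3 : ((3 + 1 : ℕ) : ℝ) = 4 := by norm_num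
    simp only [h3] at h1
    exact h1

/-- `f n / n` as an arithmetic function -/
noncomputable def dv (f : ℕ → ℝ) : ArithmeticFunction ℝ := ⟨fun n => if n = 0 then 0 else f n / n, by simp⟩

lemma dv_apply (f : ℕ → ℝ) (n : ℕ) (hn : n ≠ 0) : dv f n = f n / n := by
  show (if n = 0 then 0 else f n / n) = _
  rw [if_neg hn]

/-- the sum with the von Mangoldt function -/
theorem mangoldt_bound (n : ℤ) (hn : n ≠ 0) (hsq : ¬ IsSquare n) : ∃ C : ℝ, ∀ N : ℕ,
    |∑ d ∈ Ioc 0 N, XX n d * Λ d / d| ≤ C := by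
  obtain ⟨L, hL, hLa⟩ := L_approx n hn hsq
  obtain ⟨C1, hC1⟩ := log_bound n hn hsq
  set B : ℝ := 8 * n.natAbs with hBdef
  have hB0 : 0 ≤ B := by positivity
  refine ⟨(C1 + B * (Real.log 4 + 4)) / L, fun N => ?_⟩
  -- the convolution identity
  have hconv : ∀ m ∈ Ioc 0 N, (dv (fun d => XX n d * Λ d) * dv (fun d => XX n d)) m =
      XX n m * (Real.log m / m) := by
    intro m hm
    have hm0 : m ≠ 0 := by have := (Finset.mem_Ioc.1 hm).1; omega
    rw [ArithmeticFunction.mul_apply]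
    have h1 : ∀ x ∈ m.divisorsAntidiagonal,
        dv (fun d => XX n d * Λ d) x.1 * dv (fun d => XX n d) x.2 =
        XX n m / m * (Λ x.1 * (ζ x.2 : ℕ)) := by
      intro x hx
      rw [Nat.mem_divisorsAntidiagonal] at hx
      have hx1 : x.1 ≠ 0 := by rintro h; rw [h, zero_mul] at hx; exact hm0 hx.1.symm
      have hx2 : x.2 ≠ 0 := by rintro h; rw [h, mul_zero] at hx; exact hm0 hx.1.symm
      rw [dv_apply _ _ hx1, dv_apply _ _ hx2, zeta_apply, if_neg hx2, ← hx.1, XX_mul]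
      push_cast
      have hx1' : (x.1 : ℝ) ≠ 0 := by exact_mod_cast hx1
      have hx2' : (x.2 : ℝ) ≠ 0 := by exact_mod_cast hx2
      field_simp
    rw [Finset.sum_congr rfl h1, ← Finset.mul_sum]
    have h2 : ∑ x ∈ m.divisorsAntidiagonal, Λ x.1 * (ζ x.2 : ℕ) = Real.log m := by
      have h3 := congrArg (fun f : ArithmeticFunction ℝ => f m) vonMangoldt_mul_zeta
      simp only [ArithmeticFunction.mul_apply, natCoe_apply, log_apply] at h3
      exact h3
    rw [h2]
    ring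
  have hsum : ∑ m ∈ Ioc 0 N, XX n m * (Real.log m / m) =
      ∑ d ∈ Ioc 0 N, (XX n d * Λ d / d) * ∑ m ∈ Ioc 0 (N / d), XX n m / (m : ℝ) := by
    rw [← Finset.sum_congr rfl hconv, sum_Ioc_mul_eq_sum_sum]
    refine Finset.sum_congr rfl fun d hd => ?_
    have hd0 : d ≠ 0 := by have := (Finset.mem_Ioc.1 hd).1; omega
    rw [dv_apply _ _ hd0]
    congr 1
    refine Finset.sum_congr rfl fun m hm => ?_
    have hm0 : m ≠ 0 := by have := (Finset.mem_Ioc.1 hm).1; omega
    rw [dv_apply _ _ hm0]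
  -- the error
  have herr : |∑ d ∈ Ioc 0 N, (XX n d * Λ d / d) * (∑ m ∈ Ioc 0 (N / d), XX n m / (m : ℝ) - L)| ≤
      B * (Real.log 4 + 4) := by
    rcases Nat.eq_zero_or_pos N with hN | hN
    · subst hN
      simp only [Finset.Ioc_self, Finset.sum_empty, abs_zero]
      have := Real.log_nonneg (by norm_num : (1 : ℝ) ≤ 4)
      positivity
    have hNr : (0 : ℝ) < N := by exact_mod_cast hN
    refine (Finset.abs_sum_le_sum_abs _ _).trans ?_
    have h1 : ∀ d ∈ Ioc 0 N, |(XX n d * Λ d / d) * (∑ m ∈ Ioc 0 (N / d), XX n m / (m : ℝ) - L)| ≤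
        B / N * Λ d := by
      intro d hd
      have hd0 : 0 < d := (Finset.mem_Ioc.1 hd).1
      have hd0' : (0 : ℝ) < d := by exact_mod_cast hd0
      rw [abs_mul, abs_div, abs_mul, abs_of_nonneg (vonMangoldt_nonneg (n := d)),
        abs_of_pos hd0']
      have h2 := hLa (N / d)
      have h3 : B / (((N / d : ℕ) : ℝ) + 1) ≤ B * d / N := by
        rw [div_le_div_iff₀ (by positivity) hNr]
        have h4 : (N : ℝ) ≤ d * (((N / d : ℕ) : ℝ) + 1) := by
          have h5 : N < d * (N / d + 1) := by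
            have := Nat.lt_div_mul_add (a := N) hd0
            have e : d * (N / d + 1) = N / d * d + d := by ring
            omega
          exact_mod_cast h5.le
        calc B * N ≤ B * (d * (((N / d : ℕ) : ℝ) + 1)) := mul_le_mul_of_nonneg_left h4 hB0
          _ = B * d * (((N / d : ℕ) : ℝ) + 1) := by ring
      have h6 : |XX n d| * Λ d / d ≤ Λ d / d := by
        refine div_le_div_of_nonneg_right ?_ hd0'.le
        have := mul_le_mul_of_nonneg_right (XX_abs_le n d) (vonMangoldt_nonneg (n := d))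
        linarith
      calc |XX n d| * Λ d / d * |∑ m ∈ Ioc 0 (N / d), XX n m / (m : ℝ) - L|
          ≤ Λ d / d * (B * d / N) := mul_le_mul h6 (h2.trans h3) (abs_nonneg _)
            (div_nonneg vonMangoldt_nonneg hd0'.le)
        _ = B / N * Λ d := by field_simp
    refine (Finset.sum_le_sum h1).trans ?_
    rw [← Finset.mul_sum]
    have h2 : ∑ d ∈ Ioc 0 N, Λ d ≤ (Real.log 4 + 4) * N := by
      have h3 := Chebyshev.psi_le_const_mul_self (x := (N : ℝ)) hNr.le
      have h4 : Chebyshev.psi (N : ℝ) = ∑ d ∈ Ioc 0 N, Λ d := by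
        unfold Chebyshev.psi
        rw [Nat.floor_natCast]
      rw [h4] at h3
      exact h3
    calc B / N * ∑ d ∈ Ioc 0 N, Λ d ≤ B / N * ((Real.log 4 + 4) * N) :=
          mul_le_mul_of_nonneg_left h2 (by positivity)
      _ = B * (Real.log 4 + 4) := by field_simp
  have h1 : ∑ d ∈ Ioc 0 N, (XX n d * Λ d / d) * L = ∑ m ∈ Ioc 0 N, XX n m * (Real.log m / m) -
      ∑ d ∈ Ioc 0 N, (XX n d * Λ d / d) * (∑ m ∈ Ioc 0 (N / d), XX n m / (m : ℝ) - L) := by
    rw [hsum, ← Finset.sum_sub_distrib]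
    refine Finset.sum_congr rfl fun d _ => ?_
    ring
  rw [← Finset.sum_mul] at h1
  rw [le_div_iff₀ hL]
  have h2 : |∑ d ∈ Ioc 0 N, XX n d * Λ d / d| * L = |(∑ d ∈ Ioc 0 N, XX n d * Λ d / d) * L| := by
    rw [abs_mul, abs_of_pos hL]
  rw [h2, h1]
  exact (abs_sub _ _).trans (add_le_add (hC1 N) herr)

/-- the sum with `log p / p` over the primes -/
theorem prime_log_bound (n : ℤ) (hn : n ≠ 0) (hsq : ¬ IsSquare n) : ∃ C : ℝ, ∀ N : ℕ,
    |∑ d ∈ Ioc 0 N, if d.Prime then XX n d * Real.log d / d else 0| ≤ C := by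
  obtain ⟨C, hC⟩ := mangoldt_bound n hn hsq
  have hs := ArithmeticFunction.vonMangoldt.summable_residueClass_non_primes_div (q := 1) (0 : ZMod 1)
  set g : ℕ → ℝ := fun n : ℕ =>
    (if n.Prime then 0 else ArithmeticFunction.vonMangoldt.residueClass (0 : ZMod 1) n) / n with hg
  have hres : ∀ d, ArithmeticFunction.vonMangoldt.residueClass (0 : ZMod 1) d = Λ d := by
    intro d
    unfold ArithmeticFunction.vonMangoldt.residueClass
    rw [Set.indicator_of_mem]
    exact Subsingleton.elim _ _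
  have hg0 : ∀ d, 0 ≤ g d := by
    intro d
    simp only [hg, hres]
    split_ifs
    · simp
    · exact div_nonneg vonMangoldt_nonneg (Nat.cast_nonneg d)
  refine ⟨C + ∑' d, g d, fun N => ?_⟩
  have h1 : ∑ d ∈ Ioc 0 N, (if d.Prime then XX n d * Real.log d / d else 0) =
      ∑ d ∈ Ioc 0 N, XX n d * Λ d / d - ∑ d ∈ Ioc 0 N, XX n d * g d := by
    rw [← Finset.sum_sub_distrib]
    refine Finset.sum_congr rfl fun d _ => ?_
    simp only [hg, hres]
    split_ifs with h
    · rw [vonMangoldt_apply_prime h]; simp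
    · ring
  rw [h1]
  refine (abs_sub _ _).trans (add_le_add (hC N) ?_)
  refine (Finset.abs_sum_le_sum_abs _ _).trans ?_
  refine le_trans (Finset.sum_le_sum (g := g) fun d _ => ?_) (hs.sum_le_tsum _ fun d _ => hg0 d)
  rw [abs_mul, abs_of_nonneg (hg0 d)]
  have := mul_le_mul_of_nonneg_right (XX_abs_le n d) (hg0 d)
  linarith

/-- Mertens' theorem for the character `XX n` -/
theorem prime_bound (n : ℤ) (hn : n ≠ 0) (hsq : ¬ IsSquare n) : ∃ C : ℝ, ∀ z y : ℕ,
    |∑ p ∈ (Ioc z y).filter Nat.Prime, XX n p / (p : ℝ)| ≤ C := by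
  obtain ⟨C, hC⟩ := prime_log_bound n hn hsq
  have hC0 : 0 ≤ C := (abs_nonneg _).trans (hC 0)
  set X : ℕ → ℝ := fun d => if d.Prime then XX n d * Real.log d / d else 0 with hX
  have hX2 : ∀ D N : ℕ, D ≤ N → |∑ d ∈ Ioc D N, X d| ≤ 2 * C := by
    intro D N h
    have h1 := hC N
    have h2 := hC D
    have h3 : ∑ d ∈ Ioc D N, X d = ∑ d ∈ Ioc 0 N, X d - ∑ d ∈ Ioc 0 D, X d := by
      rw [eq_sub_iff_add_eq, add_comm, Finset.sum_Ioc_consecutive _ (Nat.zero_le D) h]
    rw [h3]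
    rw [abs_le] at h1 h2 ⊢
    constructor <;> linarith [h1.1, h1.2, h2.1, h2.2]
  have key : ∀ z y : ℕ, 1 ≤ z → z + 1 ≤ y →
      |∑ p ∈ (Ioc z y).filter Nat.Prime, XX n p / (p : ℝ)| ≤ 2 * C * (Real.log 2)⁻¹ := by
    intro z y hz hy
    have h1 := abel_bound X (fun d => (Real.log d)⁻¹) z (2 * C) (fun N h => hX2 z N h)
      (fun d _ => inv_nonneg.2 (Real.log_natCast_nonneg d))
      (fun d hd => by
        have hd1 : (1 : ℝ) < d := by exact_mod_cast (by omega : 1 < d)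
        have hl : 0 < Real.log d := Real.log_pos hd1
        apply inv_anti₀ hl
        apply Real.log_le_log (by linarith)
        push_cast; linarith) y hy
    have h2 : ∑ d ∈ Ioc z y, X d * (Real.log d)⁻¹ =
        ∑ p ∈ (Ioc z y).filter Nat.Prime, XX n p / (p : ℝ) := by
      rw [Finset.sum_filter]
      refine Finset.sum_congr rfl fun d hd => ?_
      have hd1 : (1 : ℝ) < d := by
        have := (Finset.mem_Ioc.1 hd).1
        exact_mod_cast (by omega : 1 < d)
      have hl : Real.log d ≠ 0 := (Real.log_pos hd1).ne'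
      simp only [hX]
      split_ifs
      · field_simp
      · ring
    rw [h2] at h1
    refine h1.trans ?_
    have h3 : (Real.log ((z + 1 : ℕ) : ℝ))⁻¹ ≤ (Real.log 2)⁻¹ := by
      apply inv_anti₀ (Real.log_pos (by norm_num))
      apply Real.log_le_log (by norm_num)
      exact_mod_cast (by omega : 2 ≤ z + 1)
    exact mul_le_mul_of_nonneg_left h3 (by linarith)
  refine ⟨2 * C * (Real.log 2)⁻¹, fun z y => ?_⟩
  have hnn : 0 ≤ 2 * C * (Real.log 2)⁻¹ := by
    have := Real.log_pos (by norm_num : (1 : ℝ) < 2)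
    positivity
  have hemp : ∀ z y : ℕ, y ≤ z → |∑ p ∈ (Ioc z y).filter Nat.Prime, XX n p / (p : ℝ)| ≤
      2 * C * (Real.log 2)⁻¹ := by
    intro z y h
    rw [Finset.Ioc_eq_empty_of_le h]
    simpa using hnn
  rcases Nat.lt_or_ge z y with h | h
  · rcases Nat.eq_zero_or_pos z with hz | hz
    · subst hz
      have h1 : (Ioc 0 y).filter Nat.Prime = (Ioc 1 y).filter Nat.Prime := by
        ext p
        simp only [Finset.mem_filter, Finset.mem_Ioc]
        constructor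
        · rintro ⟨⟨_, h2⟩, hp⟩
          exact ⟨⟨hp.one_lt, h2⟩, hp⟩
        · rintro ⟨⟨_, h2⟩, hp⟩
          exact ⟨⟨hp.pos, h2⟩, hp⟩
      rw [h1]
      rcases Nat.lt_or_ge 1 y with h2 | h2
      · exact key 1 y le_rfl h2
      · exact hemp 1 y h2
    · exact key z y hz h
  · exact hemp z y h

end Pool.Agent.W400.QF
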