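import Pool.Agent.W307.QF.Stm
import Pool.Agent.W400.QF.Core

/-!
# QF-MER: the sum of `(e | p) / p` over primes is bounded
-/

set_option autoImplicit false

namespace Pool.Agent.W400.QF

open Finset Pool.Agent.W262.RK

theorem mer : Pool.Agent.W307.QF.MER := by
  intro e he
  have he0 : e ≠ 0 := by
    rintro rfl
    exact he ⟨0, by simp⟩
  obtain ⟨C, hC⟩ := prime_bound e he0 he
  refine ⟨C + 1, fun z y => ?_⟩
  have h1 : ∑ p ∈ PS z y, Jr e p / (p : ℝ) =
      ∑ p ∈ (Ioc z y).filter Nat.Prime, Pool.Agent.Helper919.XX e p / (p : ℝ) +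
      ∑ p ∈ (Ioc z y).filter Nat.Prime, (if p = 2 then Jr e 2 / 2 else 0) := by
    rw [← Finset.sum_add_distrib]
    unfold PS
    refine Finset.sum_congr rfl fun p hp => ?_
    have hpp := (Finset.mem_filter.1 hp).2
    rw [Pool.Agent.Helper919.XX_apply]
    by_cases h2 : p = 2
    · subst h2
      rw [if_neg (by decide), if_pos rfl]
      simp
    · have ho : Odd p := hpp.odd_of_ne_two h2
      rw [if_pos ho, if_neg h2, add_zero]
      rfl
  rw [h1]
  refine (abs_add_le _ _).trans (add_le_add (hC z y) ?_)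
  rw [Finset.sum_ite_eq']
  have hj : |Jr e 2| ≤ 1 := by
    unfold Jr
    have : NeZero 2 := ⟨by norm_num⟩
    rcases jacobiSym.trichotomy e 2 with h | h | h <;> rw [h] <;> simp
  split_ifs
  · rw [abs_div]
    norm_num
    linarith
  · simp

end Pool.Agent.W400.QF

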